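import Pool.Agent.Run7.h538.UB.Greedy
import Pool.Agent.H613T.Defs

/-!
# Random colourings of the vertices

A Turán system on `N` colours and a system for the uniformity `t` give a system for the uniformity
`t + 2`: take the `(t+2)`-sets with different colours which form a member, and the unions of a
member of the second system and a pair of points of the same colour.
-/

set_option autoImplicit false
set_option maxHeartbeats 1000000

open Finset

namespace Run7.h538.UB

open Pool.Agent.H613T

variable {n N : ℕ}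

/-- colourings with `Z` mapped onto `A` are equally many for all `A` of the same size -/
theorem card_image_eq (Z : Finset (Fin n)) {A B : Finset (Fin N)} (hAB : A.card = B.card) :
    (univ.filter fun x : Fin n → Fin N => Z.image x = A).card =
      (univ.filter fun x : Fin n → Fin N => Z.image x = B).card := by
  classical
  have e0 : Fintype.card {x // x ∈ A} = Fintype.card {x // x ∈ B} := by
    simp [hAB]
  obtain ⟨e⟩ := Fintype.card_eq.1 e0
  set σ : Equiv.Perm (Fin N) := e.extendSubtype with hσ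
  have hσA : A.image σ = B := by
    apply eq_of_subset_of_card_le
    · intro y hy
      rw [mem_image] at hy
      obtain ⟨a, ha, rfl⟩ := hy
      rw [hσ, e.extendSubtype_apply_of_mem a ha]
      exact (e ⟨a, ha⟩).2
    · rw [card_image_of_injective _ σ.injective, hAB]
  refine card_bij (fun x _ => σ ∘ x) ?_ ?_ ?_
  · intro x hx
    rw [mem_filter] at hx ⊢
    refine ⟨mem_univ _, ?_⟩
    rw [← image_image, hx.2, hσA]
  · intro x _ y _ h
    funext i
    exact σ.injective (congrFun h i)
  · intro y hy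
    rw [mem_filter] at hy
    refine ⟨σ.symm ∘ y, ?_, ?_⟩
    · rw [mem_filter]
      refine ⟨mem_univ _, ?_⟩
      rw [← image_image, hy.2, ← hσA, image_image]
      simp
    · funext i
      simp

/-- the number of colourings mapping `Z` onto a member of `𝓕` -/
theorem card_rainbow (Z : Finset (Fin n)) (𝓕 : Finset (Finset (Fin N))) {s : ℕ}
    (h𝓕 : ∀ A ∈ 𝓕, A.card = s) (hs : s ≤ N) :
    ((univ.filter fun x : Fin n → Fin N => Z.image x ∈ 𝓕).card : ℝ) ≤
      (N : ℝ) ^ n * ((𝓕.card : ℝ) / (N.choose s : ℝ)) := by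
  classical
  have hNs : (0 : ℝ) < (N.choose s : ℝ) := by exact_mod_cast Nat.choose_pos hs
  obtain ⟨A₀, hA₀⟩ : ∃ A₀ : Finset (Fin N), A₀.card = s := by
    obtain ⟨A₀, -, h⟩ := exists_subset_card_eq (s := (univ : Finset (Fin N))) (n := s)
      (by rw [card_univ, Fintype.card_fin]; exact hs)
    exact ⟨A₀, h⟩
  set c : ℕ := (univ.filter fun x : Fin n → Fin N => Z.image x = A₀).card with hc
  have hdis : ∀ 𝓖 : Finset (Finset (Fin N)), (∀ A ∈ 𝓖, A.card = s) →
      (univ.filter fun x : Fin n → Fin N => Z.image x ∈ 𝓖).card = 𝓖.card * c := by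
    intro 𝓖 h𝓖
    have e : (univ.filter fun x : Fin n → Fin N => Z.image x ∈ 𝓖) =
        𝓖.biUnion fun A => univ.filter fun x : Fin n → Fin N => Z.image x = A := by
      ext x
      simp
    rw [e, card_biUnion]
    · rw [sum_congr rfl fun A hA => card_image_eq Z ((h𝓖 A hA).trans hA₀.symm), sum_const,
        smul_eq_mul]
    · intro A _ B _ hAB
      rw [Function.onFun, disjoint_left]
      intro x h1 h2
      rw [mem_filter] at h1 h2
      exact hAB (h1.2.symm.trans h2.2)
  have h1 := hdis 𝓕 h𝓕
  have h2 := hdis (powersetCard s univ) fun A hA => (mem_powersetCard.1 hA).2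
  have h3 : (univ.filter fun x : Fin n → Fin N => Z.image x ∈
      powersetCard s (univ : Finset (Fin N))).card ≤ N ^ n := by
    refine (card_filter_le _ _).trans ?_
    simp
  rw [h2, card_powersetCard, card_univ, Fintype.card_fin] at h3
  have h3' : (N.choose s : ℝ) * (c : ℝ) ≤ (N : ℝ) ^ n := by exact_mod_cast h3
  rw [h1]
  push_cast
  rw [mul_comm ((N : ℝ) ^ n), div_mul_eq_mul_div, le_div_iff₀ hNs]
  nlinarith [(Nat.cast_nonneg 𝓕.card : (0 : ℝ) ≤ 𝓕.card)]

/-- the number of colourings with `x u = x v` -/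
theorem card_same {u v : Fin n} (huv : u ≠ v) :
    (N : ℝ) * ((univ.filter fun x : Fin n → Fin N => x u = x v).card : ℝ) ≤ (N : ℝ) ^ n := by
  classical
  have h : ((univ.filter fun x : Fin n → Fin N => x u = x v) ×ˢ (univ : Finset (Fin N))).card ≤
      (univ : Finset (Fin n → Fin N)).card := by
    refine card_le_card_of_injOn (fun q => Function.update q.1 u q.2) (fun _ _ => mem_univ _) ?_
    rintro ⟨x, c⟩ hx ⟨y, d⟩ hy h
    simp only [coe_product, coe_filter, mem_univ, true_and, coe_univ, Set.mem_prod,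
      Set.mem_setOf_eq, Set.mem_univ, and_true] at hx hy
    simp only at h
    have hc : c = d := by
      have := congrFun h u
      simpa using this
    have hxy : x = y := by
      funext i
      by_cases hi : i = u
      · subst hi
        have := congrFun h v
        rw [Function.update_of_ne huv.symm, Function.update_of_ne huv.symm] at this
        rw [hx, hy, this]
      · have := congrFun h i
        rwa [Function.update_of_ne hi, Function.update_of_ne hi] at this
    rw [hc, hxy]
  rw [card_product, card_univ, card_univ, Fintype.card_fin, Fintype.card_fun, Fintype.card_fin,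
    Fintype.card_fin] at h
  have h' : ((univ.filter fun x : Fin n → Fin N => x u = x v).card : ℝ) * (N : ℝ) ≤
      (N : ℝ) ^ n := by exact_mod_cast h
  linarith

/-- the second family -/
def fam2 (t : ℕ) (G : Finset (Finset (Fin n))) (x : Fin n → Fin N) : Finset (Finset (Fin n)) :=
  G.biUnion fun Z => ((powersetCard 2 (univ \ Z)).filter fun P =>
    ∀ u ∈ P, ∀ v ∈ P, x u = x v).image fun P => Z ∪ P

theorem blow {t R : ℕ} (hN : t + 2 ≤ N) (𝓕 : Finset (Finset (Fin N)))
    (h𝓕 : ∀ A ∈ 𝓕, A.card = t + 2)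
    (hcov : ∀ Y : Finset (Fin N), Y.card = t + 2 + R → ∃ A ∈ 𝓕, A ⊆ Y)
    (G : Finset (Finset (Fin n))) (hG : CovS univ R t G) :
    ∃ F : Finset (Finset (Fin n)), CovS univ R (t + 2) F ∧
      (F.card : ℝ) ≤ (n.choose (t + 2) : ℝ) * ((𝓕.card : ℝ) / (N.choose (t + 2) : ℝ)) +
        (G.card : ℝ) * ((n - t).choose 2 : ℝ) / (N : ℝ) := by
  classical
  have hN0 : (0 : ℝ) < (N : ℝ) := by exact_mod_cast (by omega : 0 < N)
  set F1 : (Fin n → Fin N) → Finset (Finset (Fin n)) := fun x =>
    (powersetCard (t + 2) univ).filter fun Z => Z.image x ∈ 𝓕 with hF1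
  set F2 : (Fin n → Fin N) → Finset (Finset (Fin n)) := fun x => fam2 t G x with hF2
  -- the sums over all colourings
  have hs1 : ∑ x : Fin n → Fin N, ((F1 x).card : ℝ) ≤
      (N : ℝ) ^ n * ((n.choose (t + 2) : ℝ) * ((𝓕.card : ℝ) / (N.choose (t + 2) : ℝ))) := by
    have e : ∀ x : Fin n → Fin N, ((F1 x).card : ℝ) =
        ∑ Z ∈ powersetCard (t + 2) (univ : Finset (Fin n)), if Z.image x ∈ 𝓕 then (1 : ℝ) else 0 := by
      intro x
      rw [hF1]
      simp only [card_filter]
      push_cast
      rfl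
    simp only [e]
    rw [sum_comm]
    have h1 : ∀ Z ∈ powersetCard (t + 2) (univ : Finset (Fin n)),
        ∑ x : Fin n → Fin N, (if Z.image x ∈ 𝓕 then (1 : ℝ) else 0) ≤
          (N : ℝ) ^ n * ((𝓕.card : ℝ) / (N.choose (t + 2) : ℝ)) := by
      intro Z _
      have h2 := card_rainbow Z 𝓕 h𝓕 hN
      rw [sum_boole]
      exact h2
    refine (sum_le_sum h1).trans ?_
    rw [sum_const, card_powersetCard, card_univ, Fintype.card_fin, nsmul_eq_mul]
    apply le_of_eq
    ring
  have hs2 : ∑ x : Fin n → Fin N, ((F2 x).card : ℝ) ≤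
      (N : ℝ) ^ n * ((G.card : ℝ) * ((n - t).choose 2 : ℝ) / (N : ℝ)) := by
    have e : ∀ x : Fin n → Fin N, ((F2 x).card : ℝ) ≤
        ∑ Z ∈ G, ∑ P ∈ powersetCard 2 (univ \ Z),
          if (∀ u ∈ P, ∀ v ∈ P, x u = x v) then (1 : ℝ) else 0 := by
      intro x
      have h1 : (F2 x).card ≤ ∑ Z ∈ G, ((powersetCard 2 (univ \ Z)).filter fun P =>
          ∀ u ∈ P, ∀ v ∈ P, x u = x v).card := by
        rw [hF2]
        exact card_biUnion_le.trans (sum_le_sum fun Z _ => card_image_le)
      have h2 : ((F2 x).card : ℝ) ≤ ((∑ Z ∈ G, ((powersetCard 2 (univ \ Z)).filter fun P =>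
          ∀ u ∈ P, ∀ v ∈ P, x u = x v).card : ℕ) : ℝ) := by exact_mod_cast h1
      refine h2.trans (le_of_eq ?_)
      push_cast
      refine sum_congr rfl fun Z _ => ?_
      rw [sum_boole]
    refine (sum_le_sum fun x _ => e x).trans ?_
    rw [sum_comm]
    have h1 : ∀ Z ∈ G, ∑ x : Fin n → Fin N, ∑ P ∈ powersetCard 2 (univ \ Z),
        (if (∀ u ∈ P, ∀ v ∈ P, x u = x v) then (1 : ℝ) else 0) ≤
          ((n - t).choose 2 : ℝ) * ((N : ℝ) ^ n / (N : ℝ)) := by
      intro Z hZ
      rw [sum_comm]
      have h2 : ∀ P ∈ powersetCard 2 (univ \ Z), ∑ x : Fin n → Fin N,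
          (if (∀ u ∈ P, ∀ v ∈ P, x u = x v) then (1 : ℝ) else 0) ≤ (N : ℝ) ^ n / (N : ℝ) := by
        intro P hP
        obtain ⟨u, v, huv, rfl⟩ := card_eq_two.1 (mem_powersetCard.1 hP).2
        rw [sum_boole, le_div_iff₀ hN0, mul_comm]
        refine le_trans ?_ (card_same huv)
        refine mul_le_mul_of_nonneg_left ?_ hN0.le
        have : (univ.filter fun x : Fin n → Fin N =>
            ∀ a ∈ ({u, v} : Finset (Fin n)), ∀ b ∈ ({u, v} : Finset (Fin n)), x a = x b).card ≤
            (univ.filter fun x : Fin n → Fin N => x u = x v).card := by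
          refine card_le_card fun x hx => ?_
          rw [mem_filter] at hx ⊢
          exact ⟨mem_univ _, hx.2 u (by simp) v (by simp)⟩
        exact_mod_cast this
      refine (sum_le_sum h2).trans ?_
      rw [sum_const, card_powersetCard, nsmul_eq_mul, card_sdiff_of_subset (subset_univ _),
        card_univ, Fintype.card_fin, (hG.1 Z hZ).2]
    refine (sum_le_sum h1).trans ?_
    rw [sum_const, nsmul_eq_mul]
    apply le_of_eq
    ring
  -- a good colouring
  obtain ⟨x, -, hx⟩ : ∃ x ∈ (univ : Finset (Fin n → Fin N)), ((F1 x).card : ℝ) + ((F2 x).card : ℝ) ≤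
      (n.choose (t + 2) : ℝ) * ((𝓕.card : ℝ) / (N.choose (t + 2) : ℝ)) +
        (G.card : ℝ) * ((n - t).choose 2 : ℝ) / (N : ℝ) := by
    haveI : Nonempty (Fin N) := ⟨⟨0, by omega⟩⟩
    apply exists_le_of_sum_le (univ_nonempty)
    rw [sum_add_distrib, sum_const, card_univ, Fintype.card_fun, Fintype.card_fin,
      Fintype.card_fin, nsmul_eq_mul]
    push_cast
    rw [mul_add]
    linarith
  refine ⟨F1 x ∪ F2 x, ⟨?_, ?_⟩, ?_⟩
  · intro Z hZ
    refine ⟨subset_univ _, ?_⟩
    rw [mem_union] at hZ
    rcases hZ with h | h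
    · exact (mem_powersetCard.1 (mem_filter.1 h).1).2
    · rw [hF2] at h
      simp only [fam2, mem_biUnion, mem_image, mem_filter, mem_powersetCard] at h
      obtain ⟨Z', hZ', P, ⟨⟨hP1, hP2⟩, -⟩, rfl⟩ := h
      rw [card_union_of_disjoint, (hG.1 Z' hZ').2, hP2]
      rw [disjoint_left]
      intro a ha hb
      exact (mem_sdiff.1 (hP1 hb)).2 ha
  · intro Y _ hY
    by_cases hinj : Set.InjOn x (Y : Set (Fin n))
    · obtain ⟨A, hA, hAY⟩ := hcov (Y.image x) (by rw [card_image_of_injOn hinj, hY])
      refine ⟨Y.filter fun v => x v ∈ A, mem_union_left _ ?_, filter_subset _ _⟩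
      have himg : (Y.filter fun v => x v ∈ A).image x = A := by
        ext a
        simp only [mem_image, mem_filter]
        constructor
        · rintro ⟨v, ⟨-, h⟩, rfl⟩
          exact h
        · intro ha
          obtain ⟨v, hv, rfl⟩ := mem_image.1 (hAY ha)
          exact ⟨v, ⟨hv, ha⟩, rfl⟩
      rw [hF1, mem_filter, mem_powersetCard]
      refine ⟨⟨subset_univ _, ?_⟩, by rw [himg]; exact hA⟩
      rw [← h𝓕 A hA, ← himg]
      symm
      rw [himg]
      conv_lhs => rw [← himg]
      exact card_image_of_injOn (hinj.mono (by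
        intro v hv
        rw [mem_coe] at hv ⊢
        exact (mem_filter.1 hv).1))
    · rw [Set.InjOn] at hinj
      push Not at hinj
      obtain ⟨u, hu, v, hv, huv, hne⟩ := hinj
      rw [mem_coe] at hu hv
      have hsub : ({u, v} : Finset (Fin n)) ⊆ Y := by
        intro a ha
        rw [mem_insert, mem_singleton] at ha
        rcases ha with rfl | rfl <;> assumption
      have h2 : ({u, v} : Finset (Fin n)).card = 2 := card_pair hne
      have hcard : (Y \ {u, v}).card = t + R := by
        rw [card_sdiff_of_subset hsub, hY, h2]; omega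
      obtain ⟨Z, hZ, hZY⟩ := hG.2 (Y \ {u, v}) (subset_univ _) hcard
      refine ⟨Z ∪ {u, v}, mem_union_right _ ?_, union_subset (hZY.trans sdiff_subset) hsub⟩
      rw [hF2]
      simp only [fam2, mem_biUnion, mem_image, mem_filter, mem_powersetCard]
      refine ⟨Z, hZ, {u, v}, ⟨⟨?_, h2⟩, ?_⟩, rfl⟩
      · intro a ha
        rw [mem_sdiff]
        exact ⟨mem_univ _, fun haZ => (mem_sdiff.1 (hZY haZ)).2 ha⟩
      · intro a ha b hb
        rw [mem_insert, mem_singleton] at ha hb
        rcases ha with rfl | rfl <;> rcases hb with rfl | rfl <;> simp [huv]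
  · refine le_trans ?_ hx
    exact_mod_cast card_union_le (F1 x) (F2 x)

end Run7.h538.UB
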