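import Pool.Agent.Run7.h538.UB.Rec
import Pool.Agent.Run7.h538.LC.Basic
import Pool.Agent.H688R3.TuranGenLimit

/-!
# Comparison with de Caen's bound
-/

set_option autoImplicit false
set_option maxHeartbeats 1000000

open Finset

namespace Run7.h538.UB

open Pool.Agent.H613T Pool.Agent.H120R2.Clique Run7.h538.LC

theorem log_three_le : Real.log 3 ≤ 1.1 := by
  rw [Real.log_le_iff_le_exp (by norm_num)]
  have h1 := Real.exp_one_gt_d9
  have h2 := Real.quadratic_le_exp_of_nonneg (x := 0.1) (by norm_num)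
  have h3 : Real.exp 1.1 = Real.exp 1 * Real.exp 0.1 := by rw [← Real.exp_add]; norm_num
  rw [h3]
  have h4 : (0 : ℝ) < Real.exp 1 := Real.exp_pos _
  nlinarith

/-- `C(k-1,t-1) / C(k,t) = t / k` -/
theorem choose_ratio {t k : ℕ} (ht : 1 ≤ t) (hk : t ≤ k) :
    ((k - 1).choose (t - 1) : ℝ) * (k : ℝ) = (k.choose t : ℝ) * (t : ℝ) := by
  obtain ⟨s, rfl⟩ : ∃ s, t = s + 1 := ⟨t - 1, by omega⟩
  obtain ⟨j, rfl⟩ : ∃ j, k = j + 1 := ⟨k - 1, by omega⟩
  have := Nat.add_one_mul_choose_eq j s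
  simp only [Nat.add_sub_cancel]
  have h : ((j + 1 : ℕ) : ℝ) * (j.choose s : ℝ) = ((j + 1).choose (s + 1) : ℝ) * ((s + 1 : ℕ) : ℝ) := by
    exact_mod_cast this
  linarith

theorem tau_bound {K R t : ℕ} (hK : 1 ≤ K) (hR : 1 ≤ R) :
    tau R t ≤ AA K R t / ((t + R).choose t : ℝ) := tau_le (TD_all hK hR t)

theorem small {t R : ℕ} (ht : 3 ≤ t) (hR : 1 ≤ R) (hk : t + R ≤ 3 * t ^ 2) :
    ((t + R - 1).choose (t - 1) : ℝ) * tau R t ≤ 16 * (min t R : ℕ) * Real.log ((t : ℝ) + 1) := by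
  have hR0 : (1 : ℝ) ≤ (R : ℝ) := by exact_mod_cast hR
  have ht0 : (3 : ℝ) ≤ (t : ℝ) := by exact_mod_cast ht
  have h1 := tau_bound (K := 1) (t := t) le_rfl hR
  have hc : (0 : ℝ) < ((t + R).choose t : ℝ) := by exact_mod_cast Nat.choose_pos (by omega)
  have hc1 : (0 : ℝ) ≤ ((t + R - 1).choose (t - 1) : ℝ) := Nat.cast_nonneg _
  have hr := choose_ratio (t := t) (k := t + R) (by omega) (by omega)
  have hkc : ((t + R : ℕ) : ℝ) = (t : ℝ) + R := by push_cast; ring
  rw [hkc] at hr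
  have hk0 : (0 : ℝ) < (t : ℝ) + R := by linarith
  set L : ℝ := Real.log (((t : ℝ) + R) ^ 2 / R) with hL
  have hA : AA 1 R t = 2 * (2 + (R : ℝ) * (1 + L)) := by
    unfold AA
    rw [hL]
    norm_num
  have hL1 : L ≤ 2.2 + 4 * Real.log t := by
    have h2 : ((t : ℝ) + R) ^ 2 / R ≤ (3 * (t : ℝ) ^ 2) ^ 2 := by
      rw [div_le_iff₀ (by linarith)]
      have h3 : (t : ℝ) + R ≤ 3 * (t : ℝ) ^ 2 := by exact_mod_cast hk
      have h4 : ((t : ℝ) + R) ^ 2 ≤ (3 * (t : ℝ) ^ 2) ^ 2 := by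
        exact pow_le_pow_left₀ hk0.le h3 2
      have h5 : 0 ≤ (3 * (t : ℝ) ^ 2) ^ 2 := by positivity
      nlinarith
    have h6 := Real.log_le_log (by positivity) h2
    rw [Real.log_pow, Real.log_mul (by norm_num) (by positivity), Real.log_pow] at h6
    have := log_three_le
    push_cast at h6
    rw [hL]
    linarith
  have hL0 : 0 ≤ L := by
    have := AA_aux (K := 1) (R := R) (t := t) le_rfl hR
    rw [hL]
    simpa using this
  have hlog : Real.log t ≤ Real.log ((t : ℝ) + 1) := Real.log_le_log (by linarith) (by linarith)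
  have hlog4 : 1.386 ≤ Real.log ((t : ℝ) + 1) := by
    have h7 : Real.log 4 ≤ Real.log ((t : ℝ) + 1) := Real.log_le_log (by norm_num) (by linarith)
    have h8 : Real.log 4 = 2 * Real.log 2 := by
      rw [show (4 : ℝ) = 2 ^ 2 by norm_num, Real.log_pow]; norm_num
    have := Real.log_two_gt_d9
    linarith
  -- the minimum
  set μ : ℝ := ((min t R : ℕ) : ℝ) with hμ
  have hμ1 : 1 ≤ μ := by
    rw [hμ]
    exact_mod_cast (le_min (by omega) hR : 1 ≤ min t R)
  have hμ2 : (t : ℝ) * R ≤ μ * ((t : ℝ) + R) := by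
    rcases le_total t R with h | h
    · have e : μ = (t : ℝ) := by rw [hμ, min_eq_left h]
      rw [e]; nlinarith
    · have e : μ = (R : ℝ) := by rw [hμ, min_eq_right h]
      rw [e]; nlinarith
  have hμ3 : (t : ℝ) ≤ μ * ((t : ℝ) + R) := by nlinarith
  calc ((t + R - 1).choose (t - 1) : ℝ) * tau R t
      ≤ ((t + R - 1).choose (t - 1) : ℝ) * (AA 1 R t / ((t + R).choose t : ℝ)) :=
        mul_le_mul_of_nonneg_left h1 hc1
    _ = AA 1 R t * (t : ℝ) / ((t : ℝ) + R) := by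
        field_simp
        linear_combination (AA 1 R t) * hr
    _ ≤ μ * (6 + 2 * L) := by
        rw [hA, div_le_iff₀ hk0]
        nlinarith
    _ ≤ 16 * μ * Real.log ((t : ℝ) + 1) := by
        have : 6 + 2 * L ≤ 16 * Real.log ((t : ℝ) + 1) := by linarith
        nlinarith

theorem choose_large {t k g w : ℕ} (ht : 3 ≤ t) (hw : t ^ 2 + 1 ≤ w) (hkw : k - 1 ≤ g * w) :
    ((k - 1).choose (t - 1) : ℝ) ≤ Real.exp 1 * (g : ℝ) ^ (t - 1) * ((w - 1).choose (t - 1) : ℝ) := by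
  obtain ⟨s, rfl⟩ : ∃ s, t = s + 1 := ⟨t - 1, by omega⟩
  simp only [Nat.add_sub_cancel]
  have hs : (2 : ℝ) ≤ (s : ℝ) := by exact_mod_cast (by omega : 2 ≤ s)
  have hf : (0 : ℝ) < (s.factorial : ℝ) := by exact_mod_cast Nat.factorial_pos s
  have h1 := Pool.Agent.H688R3.TuranGen.choose_le_pow' (k - 1) s
  have h2 : (((k - 1 : ℕ) : ℝ)) ^ s ≤ ((g : ℝ) * (w : ℝ)) ^ s := by
    apply pow_le_pow_left₀ (Nat.cast_nonneg _)
    exact_mod_cast hkw
  -- lower bound for the second binomial coefficient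
  have h3 : ((w : ℝ) - s) ^ s ≤ (s.factorial : ℝ) * ((w - 1).choose s : ℝ) := by
    have h4 := Nat.pow_sub_le_descFactorial (w - 1) s
    rw [Nat.descFactorial_eq_factorial_mul_choose] at h4
    have e : w - 1 + 1 - s = w - s := by omega
    rw [e] at h4
    have h5 : (((w - s : ℕ) : ℝ)) ^ s ≤ (s.factorial : ℝ) * ((w - 1).choose s : ℝ) := by
      exact_mod_cast h4
    rwa [Nat.cast_sub (by nlinarith)] at h5
  have hw' : ((s : ℝ) + 1) ^ 2 + 1 ≤ (w : ℝ) := by exact_mod_cast hw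
  have h6 : (w : ℝ) ≤ (1 + 1 / (s : ℝ)) * ((w : ℝ) - s) := by
    have e : (1 + 1 / (s : ℝ)) * ((w : ℝ) - s) = (w : ℝ) + ((w : ℝ) - s - (s : ℝ) * s) / s := by
      field_simp
      ring
    rw [e]
    have : 0 ≤ ((w : ℝ) - s - (s : ℝ) * s) / s := div_nonneg (by nlinarith) (by linarith)
    linarith
  have h7 : (1 + 1 / (s : ℝ)) ^ s ≤ Real.exp 1 := by
    have h8 : 1 + 1 / (s : ℝ) ≤ Real.exp (1 / (s : ℝ)) := by
      have := Real.add_one_le_exp (1 / (s : ℝ))
      linarith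
    calc (1 + 1 / (s : ℝ)) ^ s ≤ Real.exp (1 / (s : ℝ)) ^ s :=
          pow_le_pow_left₀ (by positivity) h8 s
      _ = Real.exp 1 := by
          rw [← Real.exp_nat_mul]; congr 1; field_simp
  have hws : 0 ≤ (w : ℝ) - s := by nlinarith
  have h9 : (w : ℝ) ^ s ≤ Real.exp 1 * ((w : ℝ) - s) ^ s := by
    calc (w : ℝ) ^ s ≤ ((1 + 1 / (s : ℝ)) * ((w : ℝ) - s)) ^ s :=
          pow_le_pow_left₀ (Nat.cast_nonneg _) h6 s
      _ = (1 + 1 / (s : ℝ)) ^ s * ((w : ℝ) - s) ^ s := by rw [mul_pow]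
      _ ≤ Real.exp 1 * ((w : ℝ) - s) ^ s := mul_le_mul_of_nonneg_right h7 (by positivity)
  have h10 : (s.factorial : ℝ) * ((k - 1).choose s : ℝ) ≤
      (s.factorial : ℝ) * (Real.exp 1 * (g : ℝ) ^ s * ((w - 1).choose s : ℝ)) := by
    calc (s.factorial : ℝ) * ((k - 1).choose s : ℝ) ≤ ((k - 1 : ℕ) : ℝ) ^ s := h1
      _ ≤ ((g : ℝ) * (w : ℝ)) ^ s := h2
      _ = (g : ℝ) ^ s * (w : ℝ) ^ s := by rw [mul_pow]
      _ ≤ (g : ℝ) ^ s * (Real.exp 1 * ((w : ℝ) - s) ^ s) :=
          mul_le_mul_of_nonneg_left h9 (by positivity)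
      _ = Real.exp 1 * (g : ℝ) ^ s * ((w : ℝ) - s) ^ s := by ring
      _ ≤ Real.exp 1 * (g : ℝ) ^ s * ((s.factorial : ℝ) * ((w - 1).choose s : ℝ)) :=
          mul_le_mul_of_nonneg_left h3 (by positivity)
      _ = _ := by ring
  exact le_of_mul_le_mul_left h10 hf

/-- **De Caen's bound is sharp up to the factor `44 min(t, k - t) log (t + 1)`.** -/
theorem all {t k : ℕ} (ht : 3 ≤ t) (hk : t < k) :
    ((k - 1).choose (t - 1) : ℝ) * (1 - turanDensity t k) ≤
      44 * (min t (k - t) : ℕ) * Real.log ((t : ℝ) + 1) := by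
  have hlog : 0 ≤ Real.log ((t : ℝ) + 1) := Real.log_nonneg (by
    have : (0 : ℝ) ≤ t := Nat.cast_nonneg t
    linarith)
  by_cases hc : k ≤ 3 * t ^ 2
  · have h1 := small (t := t) (R := k - t) ht (by omega) (by omega)
    have e : t + (k - t) = k := by omega
    unfold tau at h1
    rw [e] at h1
    refine h1.trans ?_
    have : (0 : ℝ) ≤ ((min t (k - t) : ℕ) : ℝ) := Nat.cast_nonneg _
    gcongr
    norm_num
  · push Not at hc
    set g : ℕ := (k - 1) / t ^ 2 with hg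
    have ht2 : 0 < t ^ 2 := by positivity
    have hg3 : 3 ≤ g := by
      rw [hg, Nat.le_div_iff_mul_le ht2]; omega
    set w : ℕ := (k - 1) / g + 1 with hw
    have hgm : g * t ^ 2 ≤ k - 1 := Nat.div_mul_le_self _ _
    have hw1 : t ^ 2 ≤ (k - 1) / g := by
      rw [Nat.le_div_iff_mul_le (by omega), mul_comm]; exact hgm
    have hw1' : t ^ 2 + 1 ≤ w := by omega
    have hlt : k - 1 < (g + 1) * t ^ 2 := by
      rw [hg, mul_comm]
      exact Nat.lt_mul_div_succ _ ht2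
    have hw2 : w ≤ 2 * t ^ 2 := by
      have : (k - 1) / g < 2 * t ^ 2 := by
        rw [Nat.div_lt_iff_lt_mul (by omega)]
        nlinarith
      omega
    have hkw : k - 1 ≤ g * w := by
      rw [hw]
      exact (Nat.lt_mul_div_succ (k - 1) (by omega : 0 < g)).le
    have htw : t < w := by nlinarith
    have hwk : w ≤ k := by omega
    -- the division bound
    have h1 := Pool.Agent.H688R3.TuranGen.t_div (s := t - 1) (by omega) (j := w) (m := k)
      (by omega) hwk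
    have e1 : t - 1 + 1 = t := by omega
    rw [e1] at h1
    unfold Pool.Agent.H688R3.TuranGen.t at h1
    have hq : g ≤ (k - 1) / (w - 1) := by
      rw [Nat.le_div_iff_mul_le (by omega)]
      have : w - 1 = (k - 1) / g := by omega
      rw [this, mul_comm]
      exact Nat.div_mul_le_self _ _
    have hτk : 0 ≤ 1 - turanDensity t k := Pool.Agent.H688R3.TuranGen.t_nonneg (by omega)
    have h2 : (g : ℝ) ^ (t - 1) * (1 - turanDensity t k) ≤ 1 - turanDensity t w := by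
      refine le_trans ?_ h1
      refine mul_le_mul_of_nonneg_right ?_ hτk
      exact pow_le_pow_left₀ (Nat.cast_nonneg _) (by exact_mod_cast hq) _
    have h3 := choose_large ht hw1' hkw
    have h4 := small (t := t) (R := w - t) ht (by omega) (by omega)
    have e2 : t + (w - t) = w := by omega
    unfold tau at h4
    rw [e2] at h4
    have h2t : t + t ≤ w := by nlinarith
    have hm1 : min t (w - t) = t := min_eq_left (by omega)
    have hm2 : min t (k - t) = t := min_eq_left (by omega)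
    rw [hm1] at h4
    rw [hm2]
    have he := Real.exp_one_lt_d9
    have he0 := Real.exp_pos 1
    have ht0 : (0 : ℝ) ≤ (t : ℝ) := Nat.cast_nonneg t
    calc ((k - 1).choose (t - 1) : ℝ) * (1 - turanDensity t k)
        ≤ (Real.exp 1 * (g : ℝ) ^ (t - 1) * ((w - 1).choose (t - 1) : ℝ)) *
          (1 - turanDensity t k) := mul_le_mul_of_nonneg_right h3 hτk
      _ = Real.exp 1 * ((w - 1).choose (t - 1) : ℝ) *
          ((g : ℝ) ^ (t - 1) * (1 - turanDensity t k)) := by ring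
      _ ≤ Real.exp 1 * ((w - 1).choose (t - 1) : ℝ) * (1 - turanDensity t w) :=
          mul_le_mul_of_nonneg_left h2 (by positivity)
      _ = Real.exp 1 * (((w - 1).choose (t - 1) : ℝ) * (1 - turanDensity t w)) := by ring
      _ ≤ Real.exp 1 * (16 * (t : ℝ) * Real.log ((t : ℝ) + 1)) :=
          mul_le_mul_of_nonneg_left h4 he0.le
      _ ≤ 44 * (t : ℝ) * Real.log ((t : ℝ) + 1) := by
          have : 0 ≤ (t : ℝ) * Real.log ((t : ℝ) + 1) := mul_nonneg ht0 hlog
          nlinarith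

end Run7.h538.UB
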