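import Pool.Agent.TH487.LogR.Cover

/-!
# The greedy bound for Turán systems, with the number of `k`-sets containing a given `t`-set
-/

set_option autoImplicit false
set_option maxHeartbeats 1000000

open Finset

namespace Run7.h538.UB

open Pool.Agent.TH487.LogR

theorem choose_swap {N k t : ℕ} (htk : t ≤ k) (hkN : k ≤ N) :
    (N.choose k : ℝ) * (k.choose t : ℝ) = (N.choose t : ℝ) * ((N - t).choose (k - t) : ℝ) := by
  exact_mod_cast Nat.choose_mul htk

theorem greedy {N k t : ℕ} (htk : t ≤ k) (hkN : k ≤ N) :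
    ∃ F : Finset (Finset (Fin N)), (∀ Z ∈ F, Z.card = t) ∧
      (∀ Y : Finset (Fin N), Y.card = k → ∃ Z ∈ F, Z ⊆ Y) ∧
      (F.card : ℝ) ≤ (N.choose t : ℝ) / (k.choose t : ℝ) *
        (2 + Real.log ((N - t).choose (k - t) : ℝ)) := by
  classical
  have hNt : (0 : ℝ) < (N.choose t : ℝ) := by exact_mod_cast Nat.choose_pos (htk.trans hkN)
  have hkt : (0 : ℝ) < (k.choose t : ℝ) := by exact_mod_cast Nat.choose_pos htk
  have hNk : (0 : ℝ) < (N.choose k : ℝ) := by exact_mod_cast Nat.choose_pos hkN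
  have hD0 : 0 < (N - t).choose (k - t) := Nat.choose_pos (by omega)
  have hD : (0 : ℝ) < ((N - t).choose (k - t) : ℝ) := by exact_mod_cast hD0
  have hD1 : (1 : ℝ) ≤ ((N - t).choose (k - t) : ℝ) := by exact_mod_cast hD0
  set L : ℝ := Real.log ((N - t).choose (k - t) : ℝ) with hL
  have hL0 : 0 ≤ L := Real.log_nonneg hD1
  set p : ℝ := (k.choose t : ℝ) / (N.choose t : ℝ) with hp
  have hp0 : 0 < p := div_pos hkt hNt
  have hp1 : p ≤ 1 := by
    rw [hp, div_le_one hNt]
    exact_mod_cast Nat.choose_le_choose t hkN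
  have hq : (N.choose t : ℝ) / (k.choose t : ℝ) = 1 / p := by rw [hp]; field_simp
  have hq1 : 1 ≤ 1 / p := by rw [le_div_iff₀ hp0]; linarith
  obtain ⟨H, h1, h2, h3⟩ := iter htk hkN ⌈1 / p * L⌉₊
  have hM1 : 1 / p * L ≤ (⌈1 / p * L⌉₊ : ℝ) := Nat.le_ceil _
  have hM2 : (⌈1 / p * L⌉₊ : ℝ) < 1 / p * L + 1 := Nat.ceil_lt_add_one (by positivity)
  have hmiss : ((missed H k).card : ℝ) ≤ 1 / p := by
    refine h3.trans ?_
    have h5 : 1 - p ≤ Real.exp (-p) := by
      have := Real.add_one_le_exp (-p)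
      linarith
    calc (N.choose k : ℝ) * (1 - (k.choose t : ℝ) / (N.choose t : ℝ)) ^ ⌈1 / p * L⌉₊
        ≤ (N.choose k : ℝ) * Real.exp (-p) ^ ⌈1 / p * L⌉₊ := by
          refine mul_le_mul_of_nonneg_left ?_ hNk.le
          exact pow_le_pow_left₀ (by linarith) h5 _
      _ = (N.choose k : ℝ) * Real.exp (-(p * ⌈1 / p * L⌉₊)) := by
          rw [← Real.exp_nat_mul]; congr 2; ring
      _ ≤ (N.choose k : ℝ) * Real.exp (-L) := by
          refine mul_le_mul_of_nonneg_left (Real.exp_le_exp.2 ?_) hNk.le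
          have : p * (1 / p * L) ≤ p * ⌈1 / p * L⌉₊ := mul_le_mul_of_nonneg_left hM1 hp0.le
          have e : p * (1 / p * L) = L := by field_simp
          linarith
      _ = 1 / p := by
          rw [Real.exp_neg, hL, Real.exp_log hD, hp]
          have := choose_swap htk hkN
          field_simp
          linarith
  -- one member for every missed set
  have hch : ∀ S ∈ missed H k, ∃ Z : Finset (Fin N), Z ⊆ S ∧ Z.card = t := by
    intro S hS
    have hSc : S.card = k := (mem_powersetCard.1 (mem_filter.1 hS).1).2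
    exact exists_subset_card_eq (by omega)
  choose! g hg using hch
  refine ⟨H ∪ (missed H k).image g, ?_, ?_, ?_⟩
  · intro Z hZ
    rw [mem_union, mem_image] at hZ
    rcases hZ with h | ⟨S, hS, rfl⟩
    · exact h1 Z h
    · exact (hg S hS).2
  · intro Y hY
    by_cases hm : Y ∈ missed H k
    · exact ⟨g Y, mem_union_right _ (mem_image_of_mem _ hm), (hg Y hm).1⟩
    · have : ¬ ∀ R ∈ H, ¬ R ⊆ Y := by
        intro hcon
        apply hm
        unfold missed
        rw [mem_filter, mem_powersetCard]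
        exact ⟨⟨subset_univ _, hY⟩, hcon⟩
      push Not at this
      obtain ⟨R, hR, hRY⟩ := this
      exact ⟨R, mem_union_left _ hR, hRY⟩
  · have hc : ((H ∪ (missed H k).image g).card : ℝ) ≤ (H.card : ℝ) + ((missed H k).card : ℝ) := by
      have := (card_union_le H ((missed H k).image g)).trans
        (Nat.add_le_add_left card_image_le _)
      exact_mod_cast this
    have hH : (H.card : ℝ) ≤ (⌈1 / p * L⌉₊ : ℝ) := by exact_mod_cast h2
    rw [hq]
    calc ((H ∪ (missed H k).image g).card : ℝ) ≤ (1 / p * L + 1) + 1 / p := by linarith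
      _ ≤ 1 / p * (2 + L) := by nlinarith

end Run7.h538.UB
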