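import Pool.Agent.Run7.h538.UB.Blow

/-!
# The recursion and the uniform bound
-/

set_option autoImplicit false
set_option maxHeartbeats 1000000

open Finset

namespace Run7.h538.UB

open Pool.Agent.H613T

/-- the logarithm of a binomial coefficient -/
theorem log_choose_le {N M R : ℕ} (hR : 1 ≤ R) (hRM : R ≤ M) (hMN : M ≤ N) :
    Real.log (M.choose R : ℝ) ≤ (R : ℝ) * (1 + Real.log ((N : ℝ) / R)) := by
  have hR0 : (0 : ℝ) < (R : ℝ) := by exact_mod_cast hR
  have hN0 : (0 : ℝ) < (N : ℝ) := by exact_mod_cast (by omega : 0 < N)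
  have h1 : (M.choose R : ℝ) ≤ (N.choose R : ℝ) := by exact_mod_cast Nat.choose_le_choose R hMN
  have h2 : (N.choose R : ℝ) ≤ (N : ℝ) ^ R / (R.factorial : ℝ) := by
    exact_mod_cast Nat.choose_le_pow_div (α := ℝ) R N
  have h3 : (R : ℝ) ^ R / (R.factorial : ℝ) ≤ Real.exp R :=
    Real.pow_div_factorial_le_exp (R : ℝ) hR0.le R
  have h4 : (N : ℝ) ^ R / (R.factorial : ℝ) = ((N : ℝ) / R) ^ R * ((R : ℝ) ^ R / (R.factorial : ℝ)) := by
    rw [div_pow]
    field_simp
  have h5 : (M.choose R : ℝ) ≤ ((N : ℝ) / R) ^ R * Real.exp R := by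
    refine h1.trans (h2.trans ?_)
    rw [h4]
    exact mul_le_mul_of_nonneg_left h3 (by positivity)
  have h6 : (0 : ℝ) < (M.choose R : ℝ) := by exact_mod_cast Nat.choose_pos hRM
  have h7 := Real.log_le_log h6 h5
  rw [Real.log_mul (by positivity) (Real.exp_pos _).ne', Real.log_pow, Real.log_exp] at h7
  linarith

theorem rec_step {N t R : ℕ} (hN : t + 2 + R ≤ N) {c : ℝ} (hc : 0 ≤ c) (h : TD R t c) :
    TD R (t + 2) ((2 + Real.log ((N - (t + 2)).choose R : ℝ)) / ((t + 2 + R).choose (t + 2) : ℝ) +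
      c * ((t + 2).choose 2 : ℝ) / (N : ℝ)) := by
  intro n
  have hN0 : (0 : ℝ) < (N : ℝ) := by exact_mod_cast (by omega : 0 < N)
  obtain ⟨𝓕, h1, h2, h3⟩ := greedy (N := N) (k := t + 2 + R) (t := t + 2) (by omega) hN
  have e : t + 2 + R - (t + 2) = R := by omega
  rw [e] at h3
  obtain ⟨G, hG1, hG2⟩ := h n
  obtain ⟨F, hF1, hF2⟩ := blow (R := R) (by omega) 𝓕 h1 h2 G hG1
  refine ⟨F, hF1, hF2.trans ?_⟩
  have hNt : (0 : ℝ) < (N.choose (t + 2) : ℝ) := by exact_mod_cast Nat.choose_pos (by omega)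
  have hkt : (0 : ℝ) < ((t + 2 + R).choose (t + 2) : ℝ) := by
    exact_mod_cast Nat.choose_pos (by omega)
  have h4 : (𝓕.card : ℝ) / (N.choose (t + 2) : ℝ) ≤
      (2 + Real.log ((N - (t + 2)).choose R : ℝ)) / ((t + 2 + R).choose (t + 2) : ℝ) := by
    rw [div_le_div_iff₀ hNt hkt]
    calc (𝓕.card : ℝ) * ((t + 2 + R).choose (t + 2) : ℝ)
        ≤ ((N.choose (t + 2) : ℝ) / ((t + 2 + R).choose (t + 2) : ℝ) *
        (2 + Real.log ((N - (t + 2)).choose R : ℝ))) * ((t + 2 + R).choose (t + 2) : ℝ) :=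
          mul_le_mul_of_nonneg_right h3 hkt.le
      _ = _ := by field_simp
  have h5 : (n.choose t : ℝ) * ((n - t).choose 2 : ℝ) =
      (n.choose (t + 2) : ℝ) * ((t + 2).choose 2 : ℝ) := by
    have h6 := Nat.choose_mul (n := n) (k := t + 2) (s := t) (by omega)
    have e2 : t + 2 - t = 2 := by omega
    have e3 : (t + 2).choose t = (t + 2).choose 2 := by
      rw [← Nat.choose_symm (by omega : t ≤ t + 2), e2]
    rw [e2, e3] at h6
    exact_mod_cast h6.symm
  rw [add_mul]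
  refine add_le_add ?_ ?_
  · rw [mul_comm]
    exact mul_le_mul_of_nonneg_right h4 (Nat.cast_nonneg _)
  · rw [div_mul_eq_mul_div]
    refine div_le_div_of_nonneg_right ?_ hN0.le
    calc (G.card : ℝ) * ((n - t).choose 2 : ℝ) ≤ (c * (n.choose t : ℝ)) * ((n - t).choose 2 : ℝ) :=
          mul_le_mul_of_nonneg_right hG2 (Nat.cast_nonneg _)
      _ = c * ((n.choose t : ℝ) * ((n - t).choose 2 : ℝ)) := by ring
      _ = c * ((t + 2).choose 2 : ℝ) * (n.choose (t + 2) : ℝ) := by rw [h5]; ring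

/-- the bound -/
noncomputable def AA (K R t : ℕ) : ℝ :=
  (2 * K : ℝ) / (2 * K - 1) * (2 + (R : ℝ) * (1 + Real.log ((K : ℝ) * ((t : ℝ) + R) ^ 2 / R)))

theorem AA_aux {K R t : ℕ} (hK : 1 ≤ K) (hR : 1 ≤ R) :
    0 ≤ Real.log ((K : ℝ) * ((t : ℝ) + R) ^ 2 / R) := by
  have hR0 : (1 : ℝ) ≤ (R : ℝ) := by exact_mod_cast hR
  have hK0 : (1 : ℝ) ≤ (K : ℝ) := by exact_mod_cast hK
  have ht0 : (0 : ℝ) ≤ (t : ℝ) := Nat.cast_nonneg t
  apply Real.log_nonneg
  rw [le_div_iff₀ (by linarith)]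
  have h1 : (R : ℝ) ≤ ((t : ℝ) + R) ^ 2 := by nlinarith
  nlinarith

theorem AA_ge {K R t : ℕ} (hK : 1 ≤ K) (hR : 1 ≤ R) : 2 + (R : ℝ) ≤ AA K R t := by
  have hK0 : (1 : ℝ) ≤ (K : ℝ) := by exact_mod_cast hK
  have hR0 : (1 : ℝ) ≤ (R : ℝ) := by exact_mod_cast hR
  have h1 := AA_aux (t := t) hK hR
  have h2 : (1 : ℝ) ≤ (2 * K : ℝ) / (2 * K - 1) := by
    rw [le_div_iff₀ (by linarith)]; linarith
  unfold AA
  have h3 : 2 + (R : ℝ) ≤ 2 + (R : ℝ) * (1 + Real.log ((K : ℝ) * ((t : ℝ) + R) ^ 2 / R)) := by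
    nlinarith
  nlinarith

/-- **The uniform upper bound.** -/
theorem TD_all {K R : ℕ} (hK : 1 ≤ K) (hR : 1 ≤ R) : ∀ t : ℕ,
    TD R t (AA K R t / ((t + R).choose t : ℝ))
  | 0 => by
    refine (TD.trivial R 0).mono ?_
    have := AA_ge (t := 0) hK hR
    have hR0 : (1 : ℝ) ≤ (R : ℝ) := by exact_mod_cast hR
    simp only [Nat.choose_zero_right, Nat.cast_one, div_one]
    linarith
  | 1 => by
    refine (TD.trivial R 1).mono ?_
    have := AA_ge (t := 1) hK hR
    have hR0 : (1 : ℝ) ≤ (R : ℝ) := by exact_mod_cast hR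
    rw [Nat.choose_one_right, le_div_iff₀ (by positivity)]
    push_cast
    linarith
  | t + 2 => by
    have ih := TD_all hK hR t
    have hR0 : (1 : ℝ) ≤ (R : ℝ) := by exact_mod_cast hR
    have hK0 : (1 : ℝ) ≤ (K : ℝ) := by exact_mod_cast hK
    have ht0 : (0 : ℝ) ≤ (t : ℝ) := Nat.cast_nonneg t
    set k : ℕ := t + 2 + R with hk
    have hkR : (k : ℝ) = (t : ℝ) + 2 + R := by rw [hk]; push_cast; ring
    have hk3 : 3 ≤ k := by omega
    have hN : k ≤ K * k ^ 2 := by nlinarith [Nat.le_mul_of_pos_left (k ^ 2) hK]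
    have hA := AA_ge (t := t) hK hR
    have hA0 : 0 ≤ AA K R t := by linarith
    have hc : (0 : ℝ) < ((t + R).choose t : ℝ) := by exact_mod_cast Nat.choose_pos (by omega)
    have hc2 : (0 : ℝ) < (k.choose (t + 2) : ℝ) := by exact_mod_cast Nat.choose_pos (by omega)
    have h1 := rec_step (N := K * k ^ 2) (t := t) (R := R) hN (div_nonneg hA0 hc.le) ih
    refine h1.mono ?_
    rw [← hk]
    have hNR : ((K * k ^ 2 : ℕ) : ℝ) = (K : ℝ) * (k : ℝ) ^ 2 := by push_cast; ring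
    have hk0 : (0 : ℝ) < (k : ℝ) := by exact_mod_cast (by omega : 0 < k)
    have hN0 : (0 : ℝ) < (K : ℝ) * (k : ℝ) ^ 2 := by positivity
    -- the logarithm
    have h2 : Real.log ((K * k ^ 2 - (t + 2)).choose R : ℝ) ≤
        (R : ℝ) * (1 + Real.log ((K : ℝ) * (k : ℝ) ^ 2 / R)) := by
      have := log_choose_le (N := K * k ^ 2) (M := K * k ^ 2 - (t + 2)) (R := R) hR (by omega)
        (Nat.sub_le _ _)
      rwa [hNR] at this
    -- the second term
    have h3 : (k.choose (t + 2) : ℝ) * ((t + 2).choose 2 : ℝ) =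
        (k.choose 2 : ℝ) * ((t + R).choose t : ℝ) := by
      have h6 := Nat.choose_mul (n := k) (k := t + 2) (s := 2) (by omega)
      have e1 : t + 2 - 2 = t := by omega
      have e2 : k - 2 = t + R := by omega
      rw [e1, e2] at h6
      exact_mod_cast h6
    have h4 : (k.choose 2 : ℝ) ≤ (k : ℝ) ^ 2 / 2 := by
      have := Nat.choose_le_pow_div (α := ℝ) 2 k
      simpa using this
    have h5 : AA K R t / ((t + R).choose t : ℝ) * ((t + 2).choose 2 : ℝ) / ((K * k ^ 2 : ℕ) : ℝ) ≤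
        (1 / (2 * K) * AA K R t) / (k.choose (t + 2) : ℝ) := by
      rw [hNR]
      have e : AA K R t / ((t + R).choose t : ℝ) * ((t + 2).choose 2 : ℝ) =
          AA K R t * (k.choose 2 : ℝ) / (k.choose (t + 2) : ℝ) := by
        rw [div_mul_eq_mul_div, div_eq_div_iff hc.ne' hc2.ne']
        calc AA K R t * ((t + 2).choose 2 : ℝ) * (k.choose (t + 2) : ℝ)
            = AA K R t * ((k.choose (t + 2) : ℝ) * ((t + 2).choose 2 : ℝ)) := by ring
          _ = _ := by rw [h3]; ring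
      rw [e, div_div, mul_comm (k.choose (t + 2) : ℝ), ← div_div]
      refine div_le_div_of_nonneg_right ?_ hc2.le
      rw [div_le_iff₀ hN0]
      have e2 : 1 / (2 * (K : ℝ)) * AA K R t * ((K : ℝ) * (k : ℝ) ^ 2) =
          AA K R t * ((k : ℝ) ^ 2 / 2) := by
        have : (K : ℝ) ≠ 0 := by linarith
        field_simp
      rw [e2]
      exact mul_le_mul_of_nonneg_left h4 hA0
    -- monotonicity of the bound
    have h6 : AA K R t ≤ (2 * K : ℝ) / (2 * K - 1) *
        (2 + (R : ℝ) * (1 + Real.log ((K : ℝ) * (k : ℝ) ^ 2 / R))) := by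
      unfold AA
      refine mul_le_mul_of_nonneg_left ?_ (div_nonneg (by linarith) (by linarith))
      have h7 : Real.log ((K : ℝ) * ((t : ℝ) + R) ^ 2 / R) ≤
          Real.log ((K : ℝ) * (k : ℝ) ^ 2 / R) := by
        apply Real.log_le_log (by positivity)
        rw [hkR]
        have : ((t : ℝ) + R) ^ 2 ≤ ((t : ℝ) + 2 + R) ^ 2 := by nlinarith
        gcongr
      nlinarith
    set B : ℝ := 2 + (R : ℝ) * (1 + Real.log ((K : ℝ) * (k : ℝ) ^ 2 / R)) with hB
    have hAA2 : AA K R (t + 2) = (2 * K : ℝ) / (2 * K - 1) * B := by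
      unfold AA
      rw [hB, hkR]
      push_cast
      rfl
    rw [hAA2]
    calc (2 + Real.log ((K * k ^ 2 - (t + 2)).choose R : ℝ)) / (k.choose (t + 2) : ℝ) +
        AA K R t / ((t + R).choose t : ℝ) * ((t + 2).choose 2 : ℝ) / ((K * k ^ 2 : ℕ) : ℝ)
        ≤ B / (k.choose (t + 2) : ℝ) + (1 / (2 * K) * AA K R t) / (k.choose (t + 2) : ℝ) := by
          refine add_le_add (div_le_div_of_nonneg_right ?_ hc2.le) h5
          linarith
      _ ≤ B / (k.choose (t + 2) : ℝ) + (1 / (2 * K) * ((2 * K : ℝ) / (2 * K - 1) * B)) /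
            (k.choose (t + 2) : ℝ) := by
          gcongr
      _ = (2 * K : ℝ) / (2 * K - 1) * B / (k.choose (t + 2) : ℝ) := by
          have h8 : (2 * (K : ℝ) - 1) ≠ 0 := by linarith
          have h9 : (K : ℝ) ≠ 0 := by linarith
          field_simp
          ring

end Run7.h538.UB
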